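import Mathlib

/-!
# The Ulam-Kac adder
-/

namespace Q292.UK

open MeasureTheory ProbabilityTheory

/-- `U n` (`n ≥ 0`) are independent, `U n` is uniform on `{0, …, n}`, and
`X_0 = 1`, `X_{n+1} = X_n + X_{U(n)}`. -/
structure IsAdder {Ω : Type*} [MeasurableSpace Ω] (P : Measure Ω)
    (U : (n : ℕ) → Ω → Fin (n + 1)) (X : ℕ → Ω → ℝ) : Prop where
  meas : ∀ n, Measurable (U n)
  indep : iIndepFun U P
  unif : ∀ n k, P.real (U n ⁻¹' {k}) = 1 / ((n : ℝ) + 1)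
  zero : ∀ ω, X 0 ω = 1
  succ : ∀ n ω, X (n + 1) ω = X n ω + X (U n ω) ω

end Q292.UK
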