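import Mathlib
import Pool.Agent.Q292.UK.Defs

/-!
# Averaging over the last uniform variable
-/

namespace Q292.UK

open MeasureTheory ProbabilityTheory

/-- the adder as a deterministic function of the sequence of indices -/
noncomputable def x (u : (n : ℕ) → Fin (n + 1)) : ℕ → ℝ
  | 0 => 1
  | (n + 1) => x u n + x u (u n)
termination_by n => n
decreasing_by
  · exact Nat.lt_succ_self n
  · exact (u n).isLt

theorem x_zero (u : (n : ℕ) → Fin (n + 1)) : x u 0 = 1 := by rw [x]

theorem x_succ (u : (n : ℕ) → Fin (n + 1)) (n : ℕ) : x u (n + 1) = x u n + x u (u n) := by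
  rw [x]

/-- `f` depends only on the first `n` coordinates -/
def Dep (n : ℕ) (f : ((n : ℕ) → Fin (n + 1)) → ℝ) : Prop :=
  ∀ u u', (∀ i < n, u i = u' i) → f u = f u'

theorem Dep.mono {m n : ℕ} (h : m ≤ n) {f : ((n : ℕ) → Fin (n + 1)) → ℝ} (hf : Dep m f) :
    Dep n f := fun u u' hu => hf u u' fun i hi => hu i (hi.trans_le h)

theorem x_dep (n : ℕ) : Dep n (fun u => x u n) := by
  induction n using Nat.strong_induction_on with
  | _ n ih =>
    intro u u' h
    cases n with
    | zero => simp only [x_zero]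
    | succ n =>
      simp only [x_succ]
      have h1 := ih n (Nat.lt_succ_self n) u u' fun i hi => h i (hi.trans (Nat.lt_succ_self n))
      have h2 := ih (u n) (u n).isLt u u' fun i hi => h i (hi.trans (u n).isLt)
      simp only at h1 h2
      rw [h1, h2, h n (Nat.lt_succ_self n)]

theorem x_pos (u : (n : ℕ) → Fin (n + 1)) (n : ℕ) : 1 ≤ x u n := by
  induction n using Nat.strong_induction_on with
  | _ n ih =>
    cases n with
    | zero => rw [x_zero]
    | succ n =>
      rw [x_succ]
      have h1 := ih n (Nat.lt_succ_self n)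
      have h2 := ih (u n) (u n).isLt
      linarith

variable {Ω : Type*} [MeasurableSpace Ω] {P : Measure Ω} {U : (n : ℕ) → Ω → Fin (n + 1)}
  {X : ℕ → Ω → ℝ}

theorem X_eq (h : IsAdder P U X) (n : ℕ) (ω : Ω) : X n ω = x (fun k => U k ω) n := by
  induction n using Nat.strong_induction_on with
  | _ n ih =>
    cases n with
    | zero => rw [x_zero, h.zero]
    | succ n =>
      rw [x_succ, h.succ, ih n (Nat.lt_succ_self n), ih (U n ω) (U n ω).isLt]

/-- extension of finitely many coordinates by zero -/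
def ext (n : ℕ) (w : (i : Finset.range n) → Fin ((i : ℕ) + 1)) : (n : ℕ) → Fin (n + 1) :=
  fun i => if h : i ∈ Finset.range n then w ⟨i, h⟩ else 0

theorem Dep.eq {n : ℕ} {f : ((n : ℕ) → Fin (n + 1)) → ℝ} (hf : Dep n f)
    (u : (n : ℕ) → Fin (n + 1)) : f u = f (ext n fun i => u i) := by
  refine hf _ _ fun i hi => ?_
  rw [ext, dif_pos (Finset.mem_range.2 hi)]

theorem Dep.integrable [IsProbabilityMeasure P] (h : IsAdder P U X) {n : ℕ}
    {f : ((n : ℕ) → Fin (n + 1)) → ℝ} (hf : Dep n f) :
    Integrable (fun ω => f fun k => U k ω) P := by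
  have h1 : (fun ω => f fun k => U k ω) =
      (fun w => f (ext n w)) ∘ fun ω (i : Finset.range n) => U i ω := by
    funext ω
    exact hf.eq _
  have hm : Measurable (fun ω (i : Finset.range n) => U i ω) :=
    measurable_pi_lambda _ fun i => h.meas i
  rw [h1]
  have : IsFiniteMeasure (P.map fun ω (i : Finset.range n) => U i ω) :=
    Measure.isFiniteMeasure_map _ _
  exact (Integrable.of_finite (f := fun w => f (ext n w))).comp_measurable hm

/-- expectation -/
noncomputable def E (P : Measure Ω) (U : (n : ℕ) → Ω → Fin (n + 1))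
    (f : ((n : ℕ) → Fin (n + 1)) → ℝ) : ℝ := ∫ ω, f (fun k => U k ω) ∂P

/-- averaging over the last variable -/
theorem avg [IsProbabilityMeasure P] (h : IsAdder P U X) {n : ℕ}
    (Φ : ((n : ℕ) → Fin (n + 1)) → Fin (n + 1) → ℝ) (hΦ : ∀ v, Dep n (fun u => Φ u v)) :
    E P U (fun u => Φ u (u n)) = (∑ v, E P U fun u => Φ u v) / ((n : ℝ) + 1) := by
  classical
  unfold E
  have h1 : ∀ ω, Φ (fun k => U k ω) (U n ω) =
      ∑ v, Φ (fun k => U k ω) v * (if U n ω = v then 1 else 0) := by
    intro ω
    simp
  simp_rw [h1]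
  have hind := h.indep.indepFun_finset (Finset.range n) {n}
    (Finset.disjoint_singleton_right.2 Finset.notMem_range_self) h.meas
  have hterm : ∀ v : Fin (n + 1),
      Integrable (fun ω => Φ (fun k => U k ω) v * (if U n ω = v then (1 : ℝ) else 0)) P ∧
      ∫ ω, Φ (fun k => U k ω) v * (if U n ω = v then (1 : ℝ) else 0) ∂P =
        (∫ ω, Φ (fun k => U k ω) v ∂P) / ((n : ℝ) + 1) := by
    intro v
    have hG : (fun ω => Φ (fun k => U k ω) v) =
        (fun w => Φ (ext n w) v) ∘ fun ω (i : Finset.range n) => U i ω := by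
      funext ω
      exact (hΦ v).eq _
    have hK : (fun ω => if U n ω = v then (1 : ℝ) else 0) =
        (fun w : (i : ({n} : Finset ℕ)) → Fin ((i : ℕ) + 1) =>
          if w ⟨n, Finset.mem_singleton_self n⟩ = v then (1 : ℝ) else 0) ∘
          fun ω (i : ({n} : Finset ℕ)) => U i ω := by
      funext ω
      rfl
    have hI : IndepFun (fun ω => Φ (fun k => U k ω) v) (fun ω => if U n ω = v then (1 : ℝ) else 0)
        P := by
      rw [hG, hK]
      exact hind.comp (measurable_of_finite _) (measurable_of_finite _)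
    have hi1 : Integrable (fun ω => Φ (fun k => U k ω) v) P := (hΦ v).integrable h
    have hset : MeasurableSet (U n ⁻¹' {v}) := h.meas n (measurableSet_singleton v)
    have hind2 : (fun ω => if U n ω = v then (1 : ℝ) else 0) =
        (U n ⁻¹' {v}).indicator (fun _ => (1 : ℝ)) := by
      funext ω
      simp [Set.indicator_apply]
    have hi2 : Integrable (fun ω => if U n ω = v then (1 : ℝ) else 0) P := by
      rw [hind2]
      exact (integrable_const _).indicator hset
    refine ⟨hI.integrable_mul hi1 hi2, ?_⟩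
    rw [hI.integral_fun_mul_eq_mul_integral hi1.aestronglyMeasurable hi2.aestronglyMeasurable,
      hind2, integral_indicator_const _ hset, h.unif n v]
    simp [div_eq_mul_inv]
  rw [integral_finsetSum _ (fun v _ => (hterm v).1), Finset.sum_div]
  exact Finset.sum_congr rfl fun v _ => (hterm v).2

theorem E_add [IsProbabilityMeasure P] (h : IsAdder P U X) {n : ℕ}
    {f g : ((n : ℕ) → Fin (n + 1)) → ℝ} (hf : Dep n f) (hg : Dep n g) :
    E P U (fun u => f u + g u) = E P U f + E P U g :=
  integral_add (hf.integrable h) (hg.integrable h)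

theorem E_sum [IsProbabilityMeasure P] (h : IsAdder P U X) {n : ℕ} {ι : Type*} (s : Finset ι)
    {f : ι → ((n : ℕ) → Fin (n + 1)) → ℝ} (hf : ∀ i ∈ s, Dep n (f i)) :
    E P U (fun u => ∑ i ∈ s, f i u) = ∑ i ∈ s, E P U (f i) :=
  integral_finsetSum _ fun i hi => (hf i hi).integrable h

theorem E_mul (c : ℝ) (f : ((n : ℕ) → Fin (n + 1)) → ℝ) :
    E P U (fun u => c * f u) = c * E P U f :=
  integral_const_mul _ _

theorem E_mono [IsProbabilityMeasure P] (h : IsAdder P U X) {n : ℕ}
    {f g : ((n : ℕ) → Fin (n + 1)) → ℝ} (hf : Dep n f) (hg : Dep n g) (hfg : ∀ u, f u ≤ g u) :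
    E P U f ≤ E P U g :=
  integral_mono (hf.integrable h) (hg.integrable h) fun _ => hfg _

end Q292.UK
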