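import Mathlib
import Pool.Agent.Q292.UK.Core

/-!
# Mixed moments and their recursion
-/

namespace Q292.UK

open MeasureTheory ProbabilityTheory Finset

/-- power sums -/
noncomputable def S (u : (n : ℕ) → Fin (n + 1)) (n k : ℕ) : ℝ := ∑ i ∈ range (n + 1), x u i ^ k

theorem S_dep (n k : ℕ) : Dep n (fun u => S u n k) := by
  intro u u' h
  simp only [S]
  refine Finset.sum_congr rfl fun i hi => ?_
  have h1 : x u i = x u' i := x_dep i u u' fun j hj => h j (by
    have := Finset.mem_range.1 hi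
    omega)
  rw [h1]

theorem S_succ (u : (n : ℕ) → Fin (n + 1)) (n k : ℕ) : S u (n + 1) k = S u n k + x u (n + 1) ^ k := by
  rw [S, Finset.sum_range_succ]
  rfl

theorem S_nonneg (u : (n : ℕ) → Fin (n + 1)) (n k : ℕ) : 0 ≤ S u n k :=
  Finset.sum_nonneg fun i _ => pow_nonneg (zero_le_one.trans (x_pos u i)) k

/-- product of power sums -/
noncomputable def L (u : (n : ℕ) → Fin (n + 1)) (n : ℕ) (l : List ℕ) : ℝ := (l.map (S u n)).prod

theorem L_nil (u : (n : ℕ) → Fin (n + 1)) (n : ℕ) : L u n [] = 1 := by simp [L]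

theorem L_cons (u : (n : ℕ) → Fin (n + 1)) (n k : ℕ) (l : List ℕ) :
    L u n (k :: l) = S u n k * L u n l := by simp [L]

theorem L_dep (n : ℕ) (l : List ℕ) : Dep n (fun u => L u n l) := by
  induction l with
  | nil =>
    intro u u' _
    simp only [L_nil]
  | cons k l ih =>
    intro u u' h
    have h1 : S u n k = S u' n k := S_dep n k u u' h
    have h2 : L u n l = L u' n l := ih u u' h
    simp only [L_cons]
    rw [h1, h2]

theorem L_nonneg (u : (n : ℕ) → Fin (n + 1)) (n : ℕ) (l : List ℕ) : 0 ≤ L u n l := by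
  induction l with
  | nil => rw [L_nil]; exact zero_le_one
  | cons k l ih =>
    rw [L_cons]
    exact mul_nonneg (S_nonneg u n k) ih

theorem pow_dep {n j : ℕ} (hj : j ≤ n) (a : ℕ) : Dep n (fun u => x u j ^ a) := by
  intro u u' h
  have h1 : x u j = x u' j := (x_dep j).mono hj u u' h
  simp only
  rw [h1]

theorem Dep.mul {n : ℕ} {f g : ((n : ℕ) → Fin (n + 1)) → ℝ} (hf : Dep n f) (hg : Dep n g) :
    Dep n (fun u => f u * g u) := by
  intro u u' h
  simp only
  rw [hf u u' h, hg u u' h]

theorem Dep.cmul {n : ℕ} {f : ((n : ℕ) → Fin (n + 1)) → ℝ} (c : ℝ) (hf : Dep n f) :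
    Dep n (fun u => c * f u) := by
  intro u u' h
  simp only
  rw [hf u u' h]

variable {Ω : Type*} [MeasurableSpace Ω] (P : Measure Ω) (U : (n : ℕ) → Ω → Fin (n + 1))

/-- mixed moments -/
noncomputable def M (n a : ℕ) (l : List ℕ) : ℝ := E P U fun u => x u n ^ a * L u n l

/-- intermediate moments -/
noncomputable def N (n b : ℕ) (l' l : List ℕ) : ℝ :=
  E P U fun u => x u (n + 1) ^ b * L u (n + 1) l' * L u n l

variable {P U} {X : ℕ → Ω → ℝ}

theorem M_nonneg [IsProbabilityMeasure P] (n a : ℕ) (l : List ℕ) : 0 ≤ M P U n a l :=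
  integral_nonneg fun _ => mul_nonneg (pow_nonneg (zero_le_one.trans (x_pos _ _)) _)
    (L_nonneg _ _ _)

theorem N_nil_right (n b : ℕ) (l' : List ℕ) : N P U n b l' [] = M P U (n + 1) b l' := by
  unfold N M
  simp only [L_nil, mul_one]

theorem N_cons [IsProbabilityMeasure P] (h : IsAdder P U X) (n b k : ℕ) (l' l : List ℕ) :
    N P U n b (k :: l') l = N P U n b l' (k :: l) + N P U n (b + k) l' l := by
  unfold N
  rw [← E_add (n := n + 1) h]
  · congr 1
    funext u
    rw [L_cons, L_cons, S_succ, pow_add]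
    ring
  · exact ((pow_dep le_rfl b).mul (L_dep (n + 1) l')).mul ((L_dep n (k :: l)).mono (Nat.le_succ n))
  · exact ((pow_dep le_rfl (b + k)).mul (L_dep (n + 1) l')).mul ((L_dep n l).mono (Nat.le_succ n))

theorem N_nil_left [IsProbabilityMeasure P] (h : IsAdder P U X) (n b : ℕ) (l : List ℕ) :
    N P U n b [] l = M P U n b l +
      (∑ i ∈ range b, (b.choose (i + 1) : ℝ) * M P U n (b - (i + 1)) ((i + 1) :: l)) / (n + 1) := by
  have h1 : N P U n b [] l = E P U (fun u => (x u n + x u (u n)) ^ b * L u n l) := by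
    unfold N
    congr 1
    funext u
    rw [L_nil, x_succ, mul_one]
  have hdep : ∀ v : Fin (n + 1), Dep n (fun u => (x u n + x u v) ^ b * L u n l) := by
    intro v u u' hu
    have e1 : x u n = x u' n := x_dep n u u' hu
    have e2 : x u v = x u' v := (x_dep v).mono (Nat.lt_succ_iff.1 v.isLt) u u' hu
    have e3 : L u n l = L u' n l := L_dep n l u u' hu
    simp only
    rw [e1, e2, e3]
  have hn : ((n : ℝ) + 1) ≠ 0 := by positivity
  rw [h1, avg h (fun u v => (x u n + x u v) ^ b * L u n l) hdep, ← E_sum h univ (n := n)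
    (fun v _ => hdep v)]
  have hpt : (fun u : (n : ℕ) → Fin (n + 1) => ∑ v : Fin (n + 1), (x u n + x u v) ^ b * L u n l) =
      fun u => ((n : ℝ) + 1) * (x u n ^ b * L u n l) + ∑ i ∈ range b, (b.choose (i + 1) : ℝ) *
        (x u n ^ (b - (i + 1)) * L u n ((i + 1) :: l)) := by
    funext u
    rw [← Finset.sum_mul]
    have e1 : ∑ v : Fin (n + 1), (x u n + x u v) ^ b =
        ∑ i ∈ range (b + 1), (b.choose i : ℝ) * (x u n ^ (b - i) * S u n i) := by
      have e2 : ∀ v : Fin (n + 1), (x u n + x u v) ^ b =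
          ∑ i ∈ range (b + 1), x u v ^ i * x u n ^ (b - i) * (b.choose i : ℝ) := by
        intro v
        rw [add_comm, add_pow]
      simp_rw [e2]
      rw [Finset.sum_comm]
      refine Finset.sum_congr rfl fun i _ => ?_
      rw [S, ← Fin.sum_univ_eq_sum_range (fun j => x u j ^ i) (n + 1), Finset.mul_sum,
        Finset.mul_sum]
      refine Finset.sum_congr rfl fun v _ => ?_
      ring
    rw [e1, Finset.sum_range_succ', add_mul, Finset.sum_mul, add_comm]
    congr 1
    · rw [S]
      simp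
      ring
    · refine Finset.sum_congr rfl fun i _ => ?_
      rw [L_cons]
      ring
  have hd2 : ∀ i ∈ range b, Dep n (fun u => (b.choose (i + 1) : ℝ) *
      (x u n ^ (b - (i + 1)) * L u n ((i + 1) :: l))) := fun i _ =>
    Dep.cmul _ ((pow_dep le_rfl _).mul (L_dep n _))
  rw [hpt, E_add h (n := n) (Dep.cmul _ ((pow_dep le_rfl _).mul (L_dep n _))) (by
    intro u u' hu
    simp only
    exact Finset.sum_congr rfl fun i hi => hd2 i hi u u' hu), E_mul, E_sum h _ hd2]
  simp only [E_mul]
  unfold M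
  field_simp

end Q292.UK
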