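import Mathlib
import Pool.Agent.Q292.UK.Mom

/-!
# Upper bounds on the moments by Lyapunov weights
-/

namespace Q292.UK

open MeasureTheory ProbabilityTheory Finset

variable {Ω : Type*} [MeasurableSpace Ω] {P : Measure Ω} {U : (n : ℕ) → Ω → Fin (n + 1)}
  {X : ℕ → Ω → ℝ}

/-- the weighted bound at time `n` -/
def Bd (P : Measure Ω) (U : (n : ℕ) → Ω → Fin (n + 1)) (m : ℕ) (h : ℕ → ℝ) (D : ℝ) (n : ℕ) : Prop :=
  ∀ a l, (∀ k ∈ l, 1 ≤ k) → a + l.sum = m → M P U n a l ≤ D * √n ^ l.length * h l.length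

theorem sum_choose_succ (b : ℕ) : ∑ i ∈ range b, (b.choose (i + 1) : ℝ) = 2 ^ b - 1 := by
  have h1 : ∑ i ∈ range (b + 1), (b.choose i : ℝ) = 2 ^ b := by
    exact_mod_cast Nat.sum_range_choose b
  rw [Finset.sum_range_succ'] at h1
  simp only [Nat.choose_zero_right, Nat.cast_one] at h1
  linarith

theorem N_base [IsProbabilityMeasure P] (hX : IsAdder P U X) {m : ℕ} {h : ℕ → ℝ} {D : ℝ} {n : ℕ}
    (hn : 1 ≤ n) (hD : 0 ≤ D) (h0 : ∀ r, 0 ≤ h r) (hB : Bd P U m h D n) (b : ℕ) (l : List ℕ)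
    (hl : ∀ k ∈ l, 1 ≤ k) (hm : b + l.sum = m) :
    N P U n b [] l ≤ D * √n ^ l.length *
      (h l.length + (2 ^ b - 1) * h (l.length + 1) / √n) := by
  have hn0 : (0 : ℝ) < n := by exact_mod_cast hn
  have hs : 0 < √(n : ℝ) := Real.sqrt_pos.2 hn0
  rw [N_nil_left hX]
  have h1 := hB b l hl hm
  have h2 : (∑ i ∈ range b, (b.choose (i + 1) : ℝ) * M P U n (b - (i + 1)) ((i + 1) :: l)) ≤
      (2 ^ b - 1) * (D * √n ^ (l.length + 1) * h (l.length + 1)) := by
    rw [← sum_choose_succ, Finset.sum_mul]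
    refine Finset.sum_le_sum fun i hi => ?_
    refine mul_le_mul_of_nonneg_left ?_ (Nat.cast_nonneg _)
    have := hB (b - (i + 1)) ((i + 1) :: l) (by
      intro k hk
      rcases List.mem_cons.1 hk with rfl | hk
      · omega
      · exact hl k hk) (by
      rw [List.sum_cons]
      have := Finset.mem_range.1 hi
      omega)
    simpa using this
  have h3 : 0 ≤ (2 ^ b - 1) * (D * √n ^ l.length * h (l.length + 1)) := by
    have : (1 : ℝ) ≤ 2 ^ b := one_le_pow₀ (by norm_num)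
    have := h0 (l.length + 1)
    have h4 : (0 : ℝ) ≤ 2 ^ b - 1 := by linarith
    positivity
  have h4 : √(n : ℝ) / (n + 1) ≤ 1 / √n := by
    rw [div_le_div_iff₀ (by positivity) hs, Real.mul_self_sqrt hn0.le]
    linarith
  calc M P U n b l + (∑ i ∈ range b, (b.choose (i + 1) : ℝ) *
        M P U n (b - (i + 1)) ((i + 1) :: l)) / (n + 1)
      ≤ D * √n ^ l.length * h l.length +
        (2 ^ b - 1) * (D * √n ^ (l.length + 1) * h (l.length + 1)) / (n + 1) := by gcongr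
    _ = D * √n ^ l.length * h l.length +
        (2 ^ b - 1) * (D * √n ^ l.length * h (l.length + 1)) * (√n / (n + 1)) := by
        rw [pow_succ]
        ring
    _ ≤ D * √n ^ l.length * h l.length +
        (2 ^ b - 1) * (D * √n ^ l.length * h (l.length + 1)) * (1 / √n) := by
        have := mul_le_mul_of_nonneg_left h4 h3
        linarith
    _ = _ := by ring

theorem len_le_sum {l : List ℕ} (hl : ∀ k ∈ l, 1 ≤ k) : l.length ≤ l.sum := by
  induction l with
  | nil => simp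
  | cons k l ih =>
    have h1 := ih fun j hj => hl j (List.mem_cons_of_mem _ hj)
    have h2 := hl k List.mem_cons_self
    simp only [List.length_cons, List.sum_cons]
    omega

theorem N_bound [IsProbabilityMeasure P] (hX : IsAdder P U X) {m : ℕ} {h : ℕ → ℝ} {D : ℝ} {n : ℕ}
    (hn : 1 ≤ n) (hD : 0 ≤ D) (h0 : ∀ r, 0 ≤ h r) {K : ℝ} (hK : ∀ r, h r ≤ K)
    (hB : Bd P U m h D n) : ∀ (l' l : List ℕ) (b : ℕ), (∀ k ∈ l', 1 ≤ k) → (∀ k ∈ l, 1 ≤ k) →
      b + l'.sum + l.sum = m →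
      N P U n b l' l ≤ D * √n ^ (l'.length + l.length) *
        (h (l'.length + l.length) + (l'.length * h (l'.length + l.length - 1) +
          (2 ^ b - 1) * h (l'.length + l.length + 1)) / √n +
          K * (m + 2 ^ m) * (2 ^ l'.length - 1) / n) := by
  have hn0 : (0 : ℝ) < n := by exact_mod_cast hn
  have hs : 0 < √(n : ℝ) := Real.sqrt_pos.2 hn0
  have hs1 : 1 ≤ √(n : ℝ) := by
    rw [Real.one_le_sqrt]
    exact_mod_cast hn
  have hss : √(n : ℝ) * √n = n := Real.mul_self_sqrt hn0.le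
  have hK0 : 0 ≤ K := (h0 0).trans (hK 0)
  intro l'
  induction l' with
  | nil =>
    intro l b _ hl hm
    have := N_base hX hn hD h0 hB b l hl (by simpa using hm)
    simpa using this
  | cons k l' ih =>
    intro l b hl' hl hm
    have hk : 1 ≤ k := hl' k List.mem_cons_self
    have hl'' : ∀ j ∈ l', 1 ≤ j := fun j hj => hl' j (List.mem_cons_of_mem _ hj)
    rw [List.sum_cons] at hm
    have i1 := ih (k :: l) b hl'' (by
      intro j hj
      rcases List.mem_cons.1 hj with rfl | hj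
      · exact hk
      · exact hl j hj) (by rw [List.sum_cons]; omega)
    have i2 := ih l (b + k) hl'' hl (by omega)
    rw [N_cons hX]
    have hlen : l'.length + (k :: l).length = l'.length + l.length + 1 := by
      simp only [List.length_cons]
      omega
    have hlen2 : (k :: l').length + l.length = l'.length + l.length + 1 := by
      simp only [List.length_cons]
      omega
    rw [hlen] at i1
    rw [hlen2]
    set r := l'.length + l.length with hr
    have hs' := len_le_sum hl''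
    simp only [List.length_cons, Nat.add_sub_cancel] at i1 ⊢
    set s := l'.length with hsl
    push_cast at i1 i2 ⊢
    -- the second term
    have hsm : (s : ℝ) ≤ m := by
      have : s ≤ m := by omega
      exact_mod_cast this
    have hbk : (2 : ℝ) ^ (b + k) ≤ 2 ^ m := pow_le_pow_right₀ (by norm_num) (by omega)
    have hbk1 : (1 : ℝ) ≤ 2 ^ (b + k) := one_le_pow₀ (by norm_num)
    have h2s : (1 : ℝ) ≤ 2 ^ s := one_le_pow₀ (by norm_num)
    have hKm : 0 ≤ K * ((m : ℝ) + 2 ^ m) := by positivity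
    have e1 : (s : ℝ) * h (r - 1) + (2 ^ (b + k) - 1) * h (r + 1) ≤ K * (m + 2 ^ m) := by
      have f1 : (s : ℝ) * h (r - 1) ≤ m * K := mul_le_mul hsm (hK _) (h0 _) (by positivity)
      have f2 : ((2 : ℝ) ^ (b + k) - 1) * h (r + 1) ≤ 2 ^ m * K :=
        mul_le_mul (by linarith) (hK _) (h0 _) (by positivity)
      linarith
    have e2 : D * √n ^ r * (h r + (s * h (r - 1) + (2 ^ (b + k) - 1) * h (r + 1)) / √n +
        K * (m + 2 ^ m) * (2 ^ s - 1) / n) ≤
        D * √n ^ (r + 1) * (h r / √n + K * (m + 2 ^ m) / n + K * (m + 2 ^ m) * (2 ^ s - 1) / n) := by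
      have key : ∀ σ A B : ℝ, 0 < σ → D * σ ^ (r + 1) * (h r / σ + A / (σ * σ) + B / (σ * σ)) =
          D * σ ^ r * (h r + A / σ + σ * (B / (σ * σ))) := by
        intro σ A B hσ
        rw [pow_succ]
        field_simp
      have g1 := key (√n) (K * (m + 2 ^ m)) (K * (m + 2 ^ m) * (2 ^ s - 1)) hs
      rw [hss] at g1
      rw [g1]
      refine mul_le_mul_of_nonneg_left ?_ (by positivity)
      have g2 : (s * h (r - 1) + (2 ^ (b + k) - 1) * h (r + 1)) / √n ≤ K * (m + 2 ^ m) / √n :=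
        div_le_div_of_nonneg_right e1 hs.le
      have g3 : 0 ≤ K * ((m : ℝ) + 2 ^ m) * (2 ^ s - 1) / n :=
        div_nonneg (mul_nonneg hKm (by linarith)) hn0.le
      have g4 : K * ((m : ℝ) + 2 ^ m) * (2 ^ s - 1) / n ≤
          √n * (K * (m + 2 ^ m) * (2 ^ s - 1) / n) := le_mul_of_one_le_left g3 hs1
      linarith
    refine (add_le_add i1 (i2.trans e2)).trans (le_of_eq ?_)
    rw [pow_succ (2 : ℝ) s]
    ring

/-- One step of the Lyapunov induction. -/
theorem Bd_step [IsProbabilityMeasure P] (hX : IsAdder P U X) {m : ℕ} {h : ℕ → ℝ} {D : ℝ} {n : ℕ}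
    (hn : 1 ≤ n) (hD : 0 ≤ D) (h0 : ∀ r, 0 ≤ h r) {K κ ρ : ℝ} (hK : ∀ r, h r ≤ K) (hκ : 0 < κ)
    (hκh : ∀ r ≤ m, κ ≤ h r) (hρ : 0 ≤ ρ)
    (hh : ∀ r ≤ m, r * h (r - 1) + (2 ^ (m - r) - 1) * h (r + 1) ≤ ρ * h r)
    (hB : Bd P U m h D n) :
    Bd P U m h (D * (1 + ρ / √n + K * (m + 2 ^ m) * 2 ^ m / κ / n)) (n + 1) := by
  have hn0 : (0 : ℝ) < n := by exact_mod_cast hn
  have hs : 0 < √(n : ℝ) := Real.sqrt_pos.2 hn0
  have hK0 : 0 ≤ K := (h0 0).trans (hK 0)
  intro a l hl hm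
  have h1 := N_bound hX hn hD h0 hK hB l [] a hl (by simp) (by simpa using hm)
  rw [N_nil_right] at h1
  simp only [List.length_nil, add_zero] at h1
  have hlen := len_le_sum hl
  set r := l.length with hr
  have hrm : r ≤ m := by omega
  have h2 : (r : ℝ) * h (r - 1) + (2 ^ a - 1) * h (r + 1) ≤ ρ * h r := by
    refine le_trans ?_ (hh r hrm)
    have : (2 : ℝ) ^ a ≤ 2 ^ (m - r) := pow_le_pow_right₀ (by norm_num) (by omega)
    have := mul_le_mul_of_nonneg_right this (h0 (r + 1))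
    linarith
  have h3 : (2 : ℝ) ^ r - 1 ≤ 2 ^ m := by
    have : (2 : ℝ) ^ r ≤ 2 ^ m := pow_le_pow_right₀ (by norm_num) hrm
    linarith
  have h4 : K * ((m : ℝ) + 2 ^ m) * (2 ^ r - 1) ≤ K * (m + 2 ^ m) * 2 ^ m / κ * h r := by
    have e1 : K * ((m : ℝ) + 2 ^ m) * (2 ^ r - 1) ≤ K * (m + 2 ^ m) * 2 ^ m :=
      mul_le_mul_of_nonneg_left h3 (by positivity)
    have e2 : K * ((m : ℝ) + 2 ^ m) * 2 ^ m ≤ K * (m + 2 ^ m) * 2 ^ m / κ * h r := by
      rw [div_mul_eq_mul_div, le_div_iff₀ hκ]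
      exact mul_le_mul_of_nonneg_left (hκh r hrm) (by positivity)
    exact e1.trans e2
  refine h1.trans ?_
  calc D * √n ^ r * (h r + (r * h (r - 1) + (2 ^ a - 1) * h (r + 1)) / √n +
        K * (m + 2 ^ m) * (2 ^ r - 1) / n)
      ≤ D * √n ^ r * (h r + ρ * h r / √n + K * (m + 2 ^ m) * 2 ^ m / κ * h r / n) := by
        gcongr
    _ = D * (1 + ρ / √n + K * (m + 2 ^ m) * 2 ^ m / κ / n) * √n ^ r * h r := by ring
    _ ≤ D * (1 + ρ / √n + K * (m + 2 ^ m) * 2 ^ m / κ / n) * √((n + 1 : ℕ) : ℝ) ^ r * h r := by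
        have e1 : √(n : ℝ) ≤ √((n + 1 : ℕ) : ℝ) := Real.sqrt_le_sqrt (by push_cast; linarith)
        have e2 := h0 r
        have e3 : 0 ≤ D * (1 + ρ / √n + K * (m + 2 ^ m) * 2 ^ m / κ / n) := by positivity
        gcongr

/-- The bound at time one. -/
theorem Bd_one [IsProbabilityMeasure P] (hX : IsAdder P U X) {m : ℕ} {h : ℕ → ℝ} {κ : ℝ}
    (hκ : 0 < κ) (hκh : ∀ r ≤ m, κ ≤ h r) : Bd P U m h (4 ^ m / κ) 1 := by
  intro a l hl hm
  have hlen := len_le_sum hl
  have hx1 : ∀ u : (n : ℕ) → Fin (n + 1), x u 1 = 2 := by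
    intro u
    rw [x_succ]
    have : ((u 0 : Fin 1) : ℕ) = 0 := by omega
    rw [this, x_zero]
    norm_num
  have hS : ∀ u : (n : ℕ) → Fin (n + 1), ∀ k, 1 ≤ k → S u 1 k ≤ 4 ^ k := by
    intro u k hk
    rw [S_succ, hx1, S]
    simp only [zero_add, Finset.sum_range_one, x_zero, one_pow]
    have h1 : (2 : ℝ) ≤ 2 ^ k := by
      calc (2 : ℝ) = 2 ^ 1 := by norm_num
        _ ≤ 2 ^ k := pow_le_pow_right₀ (by norm_num) hk
    have h2 : (4 : ℝ) ^ k = 2 ^ k * 2 ^ k := by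
      rw [← mul_pow]
      norm_num
    rw [h2]
    nlinarith
  have hL : ∀ u : (n : ℕ) → Fin (n + 1), ∀ l : List ℕ, (∀ k ∈ l, 1 ≤ k) → L u 1 l ≤ 4 ^ l.sum := by
    intro u l
    induction l with
    | nil =>
      intro _
      rw [L_nil]
      simp
    | cons k l ih =>
      intro hl
      rw [L_cons, List.sum_cons, pow_add]
      exact mul_le_mul (hS u k (hl k List.mem_cons_self))
        (ih fun j hj => hl j (List.mem_cons_of_mem _ hj)) (L_nonneg u 1 l) (by positivity)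
  have h1 : M P U 1 a l ≤ 4 ^ m := by
    have h2 : M P U 1 a l ≤ E P U (fun _ => (4 : ℝ) ^ m) := by
      refine E_mono (n := 1) hX ((pow_dep le_rfl a).mul (L_dep 1 l)) (fun _ _ _ => rfl) fun u => ?_
      rw [hx1, ← hm, pow_add]
      refine mul_le_mul ?_ (hL u l hl) (L_nonneg u 1 l) (by positivity)
      exact pow_le_pow_left₀ (by norm_num) (by norm_num) a
    refine h2.trans (le_of_eq ?_)
    simp [E]
  refine h1.trans ?_
  simp only [Nat.cast_one, Real.sqrt_one, one_pow, mul_one]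
  rw [div_mul_eq_mul_div, le_div_iff₀ hκ]
  exact mul_le_mul_of_nonneg_left (hκh _ (by omega)) (by positivity)

theorem sum_inv_sqrt_le (n : ℕ) : ∑ i ∈ range n, 1 / √((i : ℝ) + 1) ≤ 2 * √n := by
  induction n with
  | zero => simp
  | succ n ih =>
    rw [Finset.sum_range_succ]
    have hs1 : 0 < √((n : ℝ) + 1) := Real.sqrt_pos.2 (by positivity)
    have h2 : √((n : ℝ) + 1) * √((n : ℝ) + 1) = n + 1 := Real.mul_self_sqrt (by positivity)
    have h3 : √(n : ℝ) * √n = n := Real.mul_self_sqrt (by positivity)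
    have h5 : 1 / √((n : ℝ) + 1) ≤ 2 * √((n : ℝ) + 1) - 2 * √n := by
      rw [div_le_iff₀ hs1]
      nlinarith [sq_nonneg (√((n : ℝ) + 1) - √n)]
    push_cast
    linarith

theorem sum_inv_sqrt_ge (n : ℕ) : 2 * √n - 2 ≤ ∑ i ∈ range n, 1 / √((i : ℝ) + 1) := by
  have key : 2 * √((n : ℝ) + 1) - 2 ≤ ∑ i ∈ range n, 1 / √((i : ℝ) + 1) := by
    induction n with
    | zero => simp
    | succ n ih =>
      rw [Finset.sum_range_succ]
      have hs1 : 0 < √((n : ℝ) + 1) := Real.sqrt_pos.2 (by positivity)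
      have h2 : √((n : ℝ) + 1) * √((n : ℝ) + 1) = n + 1 := Real.mul_self_sqrt (by positivity)
      have h3 : √((n : ℝ) + 1 + 1) * √((n : ℝ) + 1 + 1) = n + 1 + 1 :=
        Real.mul_self_sqrt (by positivity)
      have h5 : 2 * √((n : ℝ) + 1 + 1) - 2 * √((n : ℝ) + 1) ≤ 1 / √((n : ℝ) + 1) := by
        rw [le_div_iff₀ hs1]
        nlinarith [sq_nonneg (√((n : ℝ) + 1 + 1) - √((n : ℝ) + 1))]
      push_cast
      linarith
  have : √(n : ℝ) ≤ √((n : ℝ) + 1) := Real.sqrt_le_sqrt (by linarith)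
  linarith

theorem sum_inv_le (n : ℕ) : ∑ i ∈ range n, 1 / ((i : ℝ) + 1) ≤ 1 + Real.log n := by
  have h := harmonic_le_one_add_log n
  refine le_trans (le_of_eq ?_) h
  rw [harmonic]
  push_cast
  refine Finset.sum_congr rfl fun i _ => ?_
  rw [one_div]

theorem Bd_all [IsProbabilityMeasure P] (hX : IsAdder P U X) {m : ℕ} {h : ℕ → ℝ}
    (h0 : ∀ r, 0 ≤ h r) {K κ ρ : ℝ} (hK : ∀ r, h r ≤ K) (hκ : 0 < κ)
    (hκh : ∀ r ≤ m, κ ≤ h r) (hρ : 0 ≤ ρ)
    (hh : ∀ r ≤ m, r * h (r - 1) + (2 ^ (m - r) - 1) * h (r + 1) ≤ ρ * h r) (n : ℕ) :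
    Bd P U m h (4 ^ m / κ * Real.exp (∑ i ∈ range n, (ρ / √((i : ℝ) + 1) +
      K * (m + 2 ^ m) * 2 ^ m / κ / ((i : ℝ) + 1)))) (n + 1) := by
  induction n with
  | zero =>
    simp only [Finset.range_zero, Finset.sum_empty, Real.exp_zero, mul_one]
    exact Bd_one hX hκ hκh
  | succ n ih =>
    have h1 := Bd_step hX (by omega) (by positivity) h0 hK hκ hκh hρ hh ih
    intro a l hl hm
    refine (h1 a l hl hm).trans ?_
    have e1 := h0 l.length
    have e2 : 1 + ρ / √((n + 1 : ℕ) : ℝ) + K * (m + 2 ^ m) * 2 ^ m / κ / ((n + 1 : ℕ) : ℝ) ≤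
        Real.exp (ρ / √((n : ℝ) + 1) + K * (m + 2 ^ m) * 2 ^ m / κ / ((n : ℝ) + 1)) := by
      have := Real.add_one_le_exp (ρ / √((n : ℝ) + 1) + K * (m + 2 ^ m) * 2 ^ m / κ / ((n : ℝ) + 1))
      push_cast
      linarith
    rw [Finset.sum_range_succ, Real.exp_add]
    have e3 : 0 ≤ 4 ^ m / κ * Real.exp (∑ i ∈ range n, (ρ / √((i : ℝ) + 1) +
      K * (m + 2 ^ m) * 2 ^ m / κ / ((i : ℝ) + 1))) := by positivity
    have e4 := mul_le_mul_of_nonneg_left e2 e3
    have e5 : 0 ≤ √((n + 1 + 1 : ℕ) : ℝ) ^ l.length * h l.length := by positivity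
    have e6 := mul_le_mul_of_nonneg_right e4 e5
    linarith

/-- Upper bound on the moments. -/
theorem upper [IsProbabilityMeasure P] (hX : IsAdder P U X) {m : ℕ} {h : ℕ → ℝ}
    (hpos : ∀ r ≤ m, 0 < h r) {ρ : ℝ} (hρ : 0 ≤ ρ)
    (hh : ∀ r ≤ m, r * h (r - 1) + (2 ^ (m - r) - 1) * h (r + 1) ≤ ρ * h r) :
    ∃ A B : ℝ, 0 < A ∧ 0 ≤ B ∧ ∀ n : ℕ, 1 ≤ n →
      ∫ ω, X n ω ^ m ∂P ≤ Real.exp (2 * ρ * √n + A + B * Real.log n) := by
  classical
  set h' : ℕ → ℝ := fun r => if r ≤ m then h r else 0 with hh'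
  have h0 : ∀ r, 0 ≤ h' r := by
    intro r
    rw [hh']
    simp only
    split_ifs with hr
    · exact (hpos r hr).le
    · exact le_rfl
  obtain ⟨K, hK⟩ : ∃ K, ∀ r, h' r ≤ K := by
    refine ⟨∑ r ∈ range (m + 1), h' r, fun r => ?_⟩
    by_cases hr : r ≤ m
    · exact Finset.single_le_sum (fun i _ => h0 i) (Finset.mem_range.2 (by omega))
    · have : h' r = 0 := by rw [hh']; simp only; rw [if_neg hr]
      rw [this]
      exact Finset.sum_nonneg fun i _ => h0 i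
  obtain ⟨r0, hr0, hmin⟩ := Finset.exists_min_image (range (m + 1)) h' ⟨0, by simp⟩
  have hκ : 0 < h' r0 := by
    have hr0' : r0 ≤ m := by
      have := Finset.mem_range.1 hr0
      omega
    rw [hh']
    simp only
    rw [if_pos hr0']
    exact hpos r0 hr0'
  have hκh : ∀ r ≤ m, h' r0 ≤ h' r := fun r hr => hmin r (Finset.mem_range.2 (by omega))
  have hh2 : ∀ r ≤ m, r * h' (r - 1) + (2 ^ (m - r) - 1) * h' (r + 1) ≤ ρ * h' r := by
    intro r hr
    have e1 : h' r = h r := by rw [hh']; simp only; rw [if_pos hr]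
    have e2 : h' (r - 1) = h (r - 1) := by rw [hh']; simp only; rw [if_pos (by omega)]
    rcases Nat.lt_or_ge r m with hlt | hge
    · have e3 : h' (r + 1) = h (r + 1) := by rw [hh']; simp only; rw [if_pos (by omega)]
      rw [e1, e2, e3]
      exact hh r hr
    · have e4 : m - r = 0 := by omega
      have e5 := hh r hr
      rw [e4] at e5 ⊢
      rw [e1, e2]
      simpa using e5
  set C := K * ((m : ℝ) + 2 ^ m) * 2 ^ m / h' r0 with hC
  have hK0 : 0 ≤ K := (h0 0).trans (hK 0)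
  have hC0 : 0 ≤ C := by positivity
  have hh0 : 0 < h' 0 := by
    have : h' 0 = h 0 := by rw [hh']; simp only; rw [if_pos (Nat.zero_le m)]
    rw [this]
    exact hpos 0 (Nat.zero_le m)
  have hc1 : 0 < 4 ^ m / h' r0 * h' 0 := by positivity
  refine ⟨|Real.log (4 ^ m / h' r0 * h' 0)| + C + 1, C, by positivity, hC0, fun n hn => ?_⟩
  obtain ⟨k, rfl⟩ : ∃ k, n = k + 1 := ⟨n - 1, by omega⟩
  have h1 := Bd_all hX h0 hK hκ hκh hρ hh2 k m [] (by simp) (by simp)
  have h2 : ∫ ω, X (k + 1) ω ^ m ∂P = M P U (k + 1) m [] := by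
    unfold M E
    simp only [L_nil, mul_one]
    congr 1
    funext ω
    rw [X_eq hX]
  rw [h2]
  refine h1.trans ?_
  simp only [List.length_nil, pow_zero, mul_one]
  rw [← hC, Finset.sum_add_distrib]
  have e1 : ∑ i ∈ range k, ρ / √((i : ℝ) + 1) ≤ 2 * ρ * √((k + 1 : ℕ) : ℝ) := by
    have f1 : ∑ i ∈ range k, ρ / √((i : ℝ) + 1) = ρ * ∑ i ∈ range k, 1 / √((i : ℝ) + 1) := by
      rw [Finset.mul_sum]
      exact Finset.sum_congr rfl fun i _ => by rw [mul_one_div]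
    have f2 := mul_le_mul_of_nonneg_left (sum_inv_sqrt_le k) hρ
    have f3 : √(k : ℝ) ≤ √((k + 1 : ℕ) : ℝ) := Real.sqrt_le_sqrt (by push_cast; linarith)
    have f4 := mul_le_mul_of_nonneg_left f3 hρ
    rw [f1]
    linarith
  have e2 : ∑ i ∈ range k, C / ((i : ℝ) + 1) ≤ C + C * Real.log ((k + 1 : ℕ) : ℝ) := by
    have f1 : ∑ i ∈ range k, C / ((i : ℝ) + 1) = C * ∑ i ∈ range k, 1 / ((i : ℝ) + 1) := by
      rw [Finset.mul_sum]
      exact Finset.sum_congr rfl fun i _ => by rw [mul_one_div]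
    have f2 := mul_le_mul_of_nonneg_left (sum_inv_le k) hC0
    have f3 : Real.log (k : ℝ) ≤ Real.log ((k + 1 : ℕ) : ℝ) := by
      rcases Nat.eq_zero_or_pos k with rfl | hk
      · simp
      · exact Real.log_le_log (by exact_mod_cast hk) (by push_cast; linarith)
    have f4 := mul_le_mul_of_nonneg_left f3 hC0
    rw [f1]
    linarith
  have e3 : 4 ^ m / h' r0 * h' 0 ≤ Real.exp |Real.log (4 ^ m / h' r0 * h' 0)| := by
    calc 4 ^ m / h' r0 * h' 0 = Real.exp (Real.log (4 ^ m / h' r0 * h' 0)) :=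
          (Real.exp_log hc1).symm
      _ ≤ _ := Real.exp_le_exp.2 (le_abs_self _)
  calc 4 ^ m / h' r0 * Real.exp (∑ i ∈ range k, ρ / √((i : ℝ) + 1) +
        ∑ i ∈ range k, C / ((i : ℝ) + 1)) * h' 0
      = (4 ^ m / h' r0 * h' 0) * Real.exp (∑ i ∈ range k, ρ / √((i : ℝ) + 1) +
        ∑ i ∈ range k, C / ((i : ℝ) + 1)) := by ring
    _ ≤ Real.exp |Real.log (4 ^ m / h' r0 * h' 0)| *
        Real.exp (2 * ρ * √((k + 1 : ℕ) : ℝ) + (C + C * Real.log ((k + 1 : ℕ) : ℝ))) := by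
        gcongr
    _ = Real.exp (|Real.log (4 ^ m / h' r0 * h' 0)| +
        (2 * ρ * √((k + 1 : ℕ) : ℝ) + (C + C * Real.log ((k + 1 : ℕ) : ℝ)))) :=
        (Real.exp_add _ _).symm
    _ ≤ _ := by
        apply Real.exp_le_exp.2
        linarith

end Q292.UK
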