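import Mathlib
import Pool.Agent.Q292.UK.Upper

/-!
# Lower bound on the moments
-/

namespace Q292.UK

open MeasureTheory ProbabilityTheory Finset

variable {Ω : Type*} [MeasurableSpace Ω] {P : Measure Ω} {U : (n : ℕ) → Ω → Fin (n + 1)}
  {X : ℕ → Ω → ℝ}

/-- the second component of the lower system -/
noncomputable def B (P : Measure Ω) (U : (n : ℕ) → Ω → Fin (n + 1)) (m n : ℕ) : ℝ :=
  ∑ i ∈ range m, (m.choose (i + 1) : ℝ) * M P U n (m - (i + 1)) [i + 1]

theorem A_succ [IsProbabilityMeasure P] (hX : IsAdder P U X) (m n : ℕ) :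
    M P U (n + 1) m [] = M P U n m [] + B P U m n / (n + 1) := by
  rw [← N_nil_right, N_nil_left hX]
  rfl

theorem B_nonneg [IsProbabilityMeasure P] (m n : ℕ) : 0 ≤ B P U m n :=
  Finset.sum_nonneg fun _ _ => mul_nonneg (Nat.cast_nonneg _) (M_nonneg _ _ _)

theorem N_ge_M [IsProbabilityMeasure P] (hX : IsAdder P U X) (n b : ℕ) (l : List ℕ) :
    M P U n b l ≤ N P U n b [] l := by
  rw [N_nil_left hX]
  have : 0 ≤ (∑ i ∈ range b, (b.choose (i + 1) : ℝ) * M P U n (b - (i + 1)) ((i + 1) :: l)) /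
      (n + 1) := div_nonneg (Finset.sum_nonneg fun _ _ =>
        mul_nonneg (Nat.cast_nonneg _) (M_nonneg _ _ _)) (by positivity)
  linarith

theorem B_succ [IsProbabilityMeasure P] (hX : IsAdder P U X) (m n : ℕ) :
    B P U m n + (2 ^ m - 1) * M P U (n + 1) m [] ≤ B P U m (n + 1) := by
  unfold B
  rw [← sum_choose_succ, Finset.sum_mul, ← Finset.sum_add_distrib]
  refine Finset.sum_le_sum fun i hi => ?_
  rw [← mul_add]
  refine mul_le_mul_of_nonneg_left ?_ (Nat.cast_nonneg _)
  rw [← N_nil_right n (m - (i + 1)) [i + 1], N_cons hX]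
  have h1 : m - (i + 1) + (i + 1) = m := by
    have := Finset.mem_range.1 hi
    omega
  rw [h1, N_nil_right]
  have := N_ge_M hX n (m - (i + 1)) [i + 1]
  linarith

theorem exp_le_one_add {y : ℝ} (hy : 0 ≤ y) : Real.exp (y - y ^ 2) ≤ 1 + y := by
  have h1 : y - y ^ 2 ≤ y / (1 + y) := by
    rw [le_div_iff₀ (by linarith)]
    nlinarith [pow_nonneg hy 3]
  have h2 : 1 / (1 + y) ≤ Real.exp (-(y / (1 + y))) := by
    have := Real.add_one_le_exp (-(y / (1 + y)))
    have h3 : 1 / (1 + y) = -(y / (1 + y)) + 1 := by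
      field_simp
      ring
    rw [h3]
    exact this
  have h3 : Real.exp (y / (1 + y)) ≤ 1 + y := by
    rw [Real.exp_neg, one_div] at h2
    exact (inv_le_inv₀ (by linarith) (Real.exp_pos _)).1 h2
  exact (Real.exp_le_exp.2 h1).trans h3

theorem M_zero [IsProbabilityMeasure P] (a : ℕ) (l : List ℕ) : M P U 0 a l = 1 := by
  unfold M E
  have h1 : ∀ u : (n : ℕ) → Fin (n + 1), ∀ l : List ℕ, L u 0 l = 1 := by
    intro u l
    induction l with
    | nil => exact L_nil u 0
    | cons k l ih =>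
      rw [L_cons, ih, S]
      simp [x_zero]
  simp only [x_zero, one_pow, h1, mul_one]
  simp

/-- Lower bound on the moments. -/
theorem lower [IsProbabilityMeasure P] (hX : IsAdder P U X) {m : ℕ} (hm : 1 ≤ m) :
    ∃ A B : ℝ, ∀ n : ℕ, 1 ≤ n →
      Real.exp (2 * √(2 ^ m - 1) * √n - A - B * Real.log n) ≤ ∫ ω, X n ω ^ m ∂P := by
  set q : ℝ := 2 ^ m - 1 with hq
  have hq1 : 1 ≤ q := by
    have : (2 : ℝ) ^ 1 ≤ 2 ^ m := pow_le_pow_right₀ (by norm_num) hm
    linarith
  have hsq : √q * √q = q := Real.mul_self_sqrt (by linarith)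
  have hs0 : 0 < √q := Real.sqrt_pos.2 (by linarith)
  set Ψ : ℕ → ℝ := fun n => √q * √n * M P U n m [] + B P U m n with hΨ
  have hΨ0 : Ψ 0 = q := by
    rw [hΨ]
    simp only [CharP.cast_eq_zero, Real.sqrt_zero, mul_zero, zero_mul, zero_add]
    unfold B
    simp only [M_zero, mul_one]
    exact sum_choose_succ m
  have hstep : ∀ n, Ψ n * (1 + √q / √((n : ℝ) + 1)) ≤ Ψ (n + 1) := by
    intro n
    have hA := A_succ hX m n
    have hB := B_succ hX m n
    have hBn := B_nonneg (P := P) (U := U) m n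
    have hAn := M_nonneg (P := P) (U := U) n m []
    rw [← hq] at hB
    rw [hΨ]
    simp only
    push_cast
    set s : ℝ := √((n : ℝ) + 1) with hs
    have hspos : 0 < s := Real.sqrt_pos.2 (by positivity)
    have hss : s * s = n + 1 := Real.mul_self_sqrt (by positivity)
    have hns : √(n : ℝ) ≤ s := Real.sqrt_le_sqrt (by linarith)
    have e1 : √q * √n * (1 + √q / s) ≤ √q * s + q := by
      have f1 : √q * √n * (√q / s) = q * (√n / s) := by
        rw [← hsq]
        field_simp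
        rw [Real.sq_sqrt (by positivity)]
      have f2 : √(n : ℝ) / s ≤ 1 := (div_le_one hspos).2 hns
      have f3 : q * (√n / s) ≤ q * 1 := mul_le_mul_of_nonneg_left f2 (by linarith)
      have f4 : √q * √n ≤ √q * s := mul_le_mul_of_nonneg_left hns hs0.le
      rw [mul_add, mul_one, f1]
      linarith
    have e2 : √q / s ≤ (√q * s + q) / (n + 1) := by
      rw [div_le_div_iff₀ hspos (by positivity), ← hss]
      nlinarith [mul_pos hspos hs0, mul_pos hspos (show (0 : ℝ) < q by linarith)]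
    have e3 := mul_le_mul_of_nonneg_right e1 hAn
    have e4 := mul_le_mul_of_nonneg_right e2 hBn
    have e5 : (√q * s + q) * M P U (n + 1) m [] = (√q * s + q) * M P U n m [] +
        (√q * s + q) / (n + 1) * B P U m n := by
      rw [hA]
      field_simp
    have e6 : √q * √n * M P U n m [] * (1 + √q / s) + B P U m n * (1 + √q / s) ≤
        √q * s * M P U (n + 1) m [] + B P U m (n + 1) := by linarith
    linarith
  have hall : ∀ n, q * Real.exp (∑ i ∈ range n, (√q / √((i : ℝ) + 1) - q / ((i : ℝ) + 1))) ≤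
      Ψ n := by
    intro n
    induction n with
    | zero => simp [hΨ0]
    | succ n ih =>
      rw [Finset.sum_range_succ, Real.exp_add, ← mul_assoc]
      refine le_trans ?_ (hstep n)
      have hs : 0 < √((n : ℝ) + 1) := Real.sqrt_pos.2 (by positivity)
      have h1 := exp_le_one_add (y := √q / √((n : ℝ) + 1)) (by positivity)
      have h2 : (√q / √((n : ℝ) + 1)) ^ 2 = q / ((n : ℝ) + 1) := by
        rw [div_pow, Real.sq_sqrt (by linarith), Real.sq_sqrt (by positivity)]
      rw [h2] at h1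
      exact mul_le_mul ih h1 (Real.exp_pos _).le (le_trans (by positivity) ih)
  refine ⟨4 * √q + q + Real.log (√q + 1), q + 1, fun n hn => ?_⟩
  obtain ⟨k, rfl⟩ : ∃ k, n = k + 1 := ⟨n - 1, by omega⟩
  have h2 : ∫ ω, X (k + 1) ω ^ m ∂P = M P U (k + 1) m [] := by
    unfold M E
    simp only [L_nil, mul_one]
    congr 1
    funext ω
    rw [X_eq hX]
  rw [h2]
  have hA := A_succ hX m k
  have hBn := B_nonneg (P := P) (U := U) m k
  have hAn := M_nonneg (P := P) (U := U) k m []
  have h3 : Ψ k ≤ (√q * √k + (k + 1)) * M P U (k + 1) m [] := by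
    rw [hΨ]
    simp only
    rw [hA]
    have e1 : (√q * √k + ((k : ℝ) + 1)) * (M P U k m [] + B P U m k / (k + 1)) =
        √q * √k * M P U k m [] + B P U m k + (k + 1) * M P U k m [] +
          √q * √k * (B P U m k / (k + 1)) := by
      field_simp
      ring
    rw [e1]
    have e2 : 0 ≤ ((k : ℝ) + 1) * M P U k m [] := by positivity
    have e3 : 0 ≤ √q * √k * (B P U m k / (k + 1)) := by positivity
    linarith
  have hk1 : (1 : ℝ) ≤ ((k + 1 : ℕ) : ℝ) := by push_cast; linarith [(Nat.cast_nonneg k : (0:ℝ) ≤ k)]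
  have h4 : √q * √k + ((k : ℝ) + 1) ≤ (√q + 1) * ((k + 1 : ℕ) : ℝ) := by
    have e1 : √(k : ℝ) ≤ ((k + 1 : ℕ) : ℝ) := by
      rw [Real.sqrt_le_left (by positivity)]
      push_cast
      nlinarith [(Nat.cast_nonneg k : (0:ℝ) ≤ k)]
    have e2 := mul_le_mul_of_nonneg_left e1 hs0.le
    push_cast at e2 ⊢
    linarith
  have h5 : Real.exp (2 * √q * √((k + 1 : ℕ) : ℝ) - 4 * √q - q - q * Real.log ((k + 1 : ℕ) : ℝ)) ≤
      q * Real.exp (∑ i ∈ range k, (√q / √((i : ℝ) + 1) - q / ((i : ℝ) + 1))) := by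
    have e0 : Real.exp (2 * √q * √((k + 1 : ℕ) : ℝ) - 4 * √q - q - q * Real.log ((k + 1 : ℕ) : ℝ)) ≤
        Real.exp (∑ i ∈ range k, (√q / √((i : ℝ) + 1) - q / ((i : ℝ) + 1))) := by
      apply Real.exp_le_exp.2
      rw [Finset.sum_sub_distrib]
      have f1 : ∑ i ∈ range k, √q / √((i : ℝ) + 1) = √q * ∑ i ∈ range k, 1 / √((i : ℝ) + 1) := by
        rw [Finset.mul_sum]
        exact Finset.sum_congr rfl fun i _ => by rw [mul_one_div]
      have f2 : ∑ i ∈ range k, q / ((i : ℝ) + 1) = q * ∑ i ∈ range k, 1 / ((i : ℝ) + 1) := by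
        rw [Finset.mul_sum]
        exact Finset.sum_congr rfl fun i _ => by rw [mul_one_div]
      rw [f1, f2]
      have g1 := mul_le_mul_of_nonneg_left (sum_inv_sqrt_ge k) hs0.le
      have g2 := mul_le_mul_of_nonneg_left (sum_inv_le k) (show (0 : ℝ) ≤ q by linarith)
      have g3 : Real.log (k : ℝ) ≤ Real.log ((k + 1 : ℕ) : ℝ) := by
        rcases Nat.eq_zero_or_pos k with rfl | hk
        · simp
        · exact Real.log_le_log (by exact_mod_cast hk) (by push_cast; linarith)
      have g4 := mul_le_mul_of_nonneg_left g3 (show (0 : ℝ) ≤ q by linarith)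
      have g5 : √((k + 1 : ℕ) : ℝ) ≤ √(k : ℝ) + 1 := by
        rw [Real.sqrt_le_left (by positivity)]
        have := Real.mul_self_sqrt (show (0 : ℝ) ≤ k by positivity)
        push_cast
        nlinarith [Real.sqrt_nonneg (k : ℝ)]
      have g6 := mul_le_mul_of_nonneg_left g5 hs0.le
      linarith
    refine e0.trans ?_
    exact le_mul_of_one_le_left (Real.exp_pos _).le hq1
  have h6 := hall k
  have h7 : (√q * √k + ((k : ℝ) + 1)) * M P U (k + 1) m [] ≤
      ((√q + 1) * ((k + 1 : ℕ) : ℝ)) * M P U (k + 1) m [] :=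
    mul_le_mul_of_nonneg_right h4 (M_nonneg _ _ _)
  have hD : 0 < (√q + 1) * ((k + 1 : ℕ) : ℝ) := by positivity
  have h8 : Real.exp (2 * √q * √((k + 1 : ℕ) : ℝ) - (4 * √q + q + Real.log (√q + 1)) -
      (q + 1) * Real.log ((k + 1 : ℕ) : ℝ)) = Real.exp (2 * √q * √((k + 1 : ℕ) : ℝ) - 4 * √q - q -
        q * Real.log ((k + 1 : ℕ) : ℝ)) / ((√q + 1) * ((k + 1 : ℕ) : ℝ)) := by
    rw [← Real.exp_log hD, ← Real.exp_sub,
      Real.log_mul (by positivity) (by positivity)]
    congr 1
    ring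
  rw [h8, div_le_iff₀ hD]
  linarith

end Q292.UK
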