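import Mathlib
import Pool.Agent.Q292.UK.Lower

/-!
# Explicit weights and numerical bounds
-/

namespace Q292.UK

open MeasureTheory ProbabilityTheory Finset Filter

/-- A growth bound `ρ` certified by weights. -/
def Cert (m : ℕ) (ρ : ℝ) : Prop :=
  0 ≤ ρ ∧ ∃ h : ℕ → ℝ, (∀ r ≤ m, 0 < h r) ∧
    ∀ r ≤ m, r * h (r - 1) + (2 ^ (m - r) - 1) * h (r + 1) ≤ ρ * h r

theorem cert_one : Cert 1 1 := by
  refine ⟨zero_le_one, fun _ => 1, fun _ _ => one_pos, fun r hr => ?_⟩
  interval_cases r <;> norm_num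

theorem cert_two : Cert 2 (12 / 5) := by
  refine ⟨by norm_num, fun r => if r = 0 then 1 else 4 / 5, fun r _ => ?_, fun r hr => ?_⟩
  · simp only
    split_ifs <;> norm_num
  · interval_cases r <;> norm_num

theorem cert_three : Cert 3 4 := by
  refine ⟨by norm_num, fun r => if r = 0 then 1 else if r = 1 then 1 / 2 else 1 / 3,
    fun r _ => ?_, fun r hr => ?_⟩
  · simp only
    split_ifs <;> norm_num
  · interval_cases r <;> norm_num

theorem cert_four : Cert 4 (25 / 4) := by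
  refine ⟨by norm_num, fun r => if r = 0 then 1 else if r = 1 then 2 / 5 else if r = 2 then 1 / 5
    else if r = 3 then 3 / 20 else 3 / 10, fun r _ => ?_, fun r hr => ?_⟩
  · simp only
    split_ifs <;> norm_num
  · interval_cases r <;> norm_num

/-- ratios of the general weights -/
noncomputable def t (r : ℕ) : ℝ := if r ≤ 3 then 7 / (4 - r) else 2 * (r + 1)

noncomputable def g (r : ℕ) : ℝ := ∏ i ∈ range r, t i

theorem t_pos (r : ℕ) : 0 < t r := by
  unfold t
  split_ifs with h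
  · have : (r : ℝ) ≤ 3 := by exact_mod_cast h
    apply div_pos <;> linarith
  · positivity

theorem g_pos (r : ℕ) : 0 < g r := Finset.prod_pos fun i _ => t_pos i

theorem g_succ (r : ℕ) : g (r + 1) = g r * t r := Finset.prod_range_succ _ _

theorem pow_bound (r : ℕ) (hr : 4 ≤ r) : 8 * ((r : ℝ) + 1) ≤ 5 * 2 ^ r := by
  induction r, hr using Nat.le_induction with
  | base => norm_num
  | succ r hr ih =>
    have : (4 : ℝ) ≤ r := by exact_mod_cast hr
    rw [pow_succ]
    push_cast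
    linarith

theorem t_ineq (r : ℕ) : (r : ℝ) * g (r - 1) + t r / 2 ^ r * g r ≤ 7 / 4 * g r := by
  rcases Nat.eq_zero_or_pos r with rfl | hr
  · simp [t]
  · obtain ⟨k, rfl⟩ : ∃ k, r = k + 1 := ⟨r - 1, by omega⟩
    simp only [Nat.add_sub_cancel]
    rw [g_succ]
    have hg := g_pos k
    have ht := t_pos k
    suffices h : ((k + 1 : ℕ) : ℝ) + t (k + 1) / 2 ^ (k + 1) * t k ≤ 7 / 4 * t k by
      have := mul_le_mul_of_nonneg_right h hg.le
      linarith
    rcases Nat.lt_or_ge k 4 with hk | hk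
    · interval_cases k <;> norm_num [t]
    · have h1 : t k = 2 * ((k : ℝ) + 1) := by
        unfold t
        rw [if_neg (by omega)]
      have h2 : t (k + 1) = 2 * ((k : ℝ) + 1 + 1) := by
        unfold t
        rw [if_neg (by omega)]
        push_cast
        ring
      have h3 := pow_bound (k + 1) (by omega)
      have h4 : t (k + 1) / 2 ^ (k + 1) ≤ 5 / 4 := by
        rw [h2, div_le_iff₀ (by positivity)]
        push_cast at h3
        linarith
      have h5 := mul_le_mul_of_nonneg_right h4 ht.le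
      rw [h1] at h5 ⊢
      push_cast
      linarith

theorem cert_general (m : ℕ) : Cert m (7 / 4 * √(2 ^ m)) := by
  set σ : ℝ := √(2 ^ m) with hσ
  have hσ0 : 0 < σ := Real.sqrt_pos.2 (by positivity)
  have hσσ : σ * σ = 2 ^ m := Real.mul_self_sqrt (by positivity)
  refine ⟨by positivity, fun r => g r / σ ^ r, fun r _ => div_pos (g_pos r) (by positivity),
    fun r hr => ?_⟩
  have h1 := t_ineq r
  have h2 : (r : ℝ) * (g (r - 1) / σ ^ (r - 1)) = r * g (r - 1) * σ / σ ^ r := by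
    rcases Nat.eq_zero_or_pos r with rfl | hr0
    · simp
    · obtain ⟨k, rfl⟩ : ∃ k, r = k + 1 := ⟨r - 1, by omega⟩
      simp only [Nat.add_sub_cancel]
      rw [pow_succ]
      field_simp
  have h3 : ((2 : ℝ) ^ (m - r) - 1) * (g (r + 1) / σ ^ (r + 1)) ≤ t r / 2 ^ r * g r * σ / σ ^ r := by
    have e1 : (2 : ℝ) ^ (m - r) = σ * σ / 2 ^ r := by
      rw [hσσ, eq_div_iff (by positivity), ← pow_add, Nat.sub_add_cancel hr]
    have e2 : 0 ≤ g (r + 1) / σ ^ (r + 1) := div_nonneg (g_pos _).le (by positivity)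
    have e3 : ((2 : ℝ) ^ (m - r) - 1) * (g (r + 1) / σ ^ (r + 1)) ≤
        σ * σ / 2 ^ r * (g (r + 1) / σ ^ (r + 1)) := by
      rw [← e1]
      exact mul_le_mul_of_nonneg_right (by linarith) e2
    refine e3.trans (le_of_eq ?_)
    rw [g_succ, pow_succ]
    field_simp
  rw [h2]
  refine (add_le_add_right h3 _).trans ?_
  have h4 : (r : ℝ) * g (r - 1) * σ / σ ^ r + t r / 2 ^ r * g r * σ / σ ^ r =
      (r * g (r - 1) + t r / 2 ^ r * g r) * (σ / σ ^ r) := by ring
  have h5 : 7 / 4 * σ * (g r / σ ^ r) = 7 / 4 * g r * (σ / σ ^ r) := by ring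
  rw [h4, h5]
  exact mul_le_mul_of_nonneg_right h1 (by positivity)

/-- `e^5 > ...` style bounds -/
theorem exp_nat_gt (k : ℕ) (hk : 1 ≤ k) : (2.7 : ℝ) ^ k < Real.exp k := by
  have h1 : (2.7 : ℝ) < Real.exp 1 := lt_trans (by norm_num) Real.exp_one_gt_d9
  calc (2.7 : ℝ) ^ k < Real.exp 1 ^ k := pow_lt_pow_left₀ h1 (by norm_num) (by omega)
    _ = Real.exp k := by rw [← Real.exp_nat_mul, mul_one]

theorem lt_exp_of_pow {x : ℝ} (m : ℕ) (hx : 0 ≤ x) (h : x ^ 5 ≤ (2.7 : ℝ) ^ (2 * m + 5)) :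
    x < Real.exp (0.4 * m + 1) := by
  have h1 := exp_nat_gt (2 * m + 5) (by omega)
  have h2 : Real.exp ((2 * m + 5 : ℕ) : ℝ) = Real.exp (0.4 * m + 1) ^ 5 := by
    rw [← Real.exp_nat_mul]
    congr 1
    push_cast
    ring
  rw [h2] at h1
  exact lt_of_pow_lt_pow_left₀ 5 (Real.exp_pos _).le (h.trans_lt h1)

theorem general_num (m : ℕ) (hm : 5 ≤ m) : 2 * (7 / 4 * √(2 ^ m)) < Real.exp (0.4 * m + 1) := by
  have h1 : 49 / 4 * (2 : ℝ) ^ m < Real.exp (0.8 * m + 2) := by
    induction m, hm using Nat.le_induction with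
    | base =>
      have := exp_nat_gt 6 (by norm_num)
      have h6 : Real.exp (0.8 * ((5 : ℕ) : ℝ) + 2) = Real.exp ((6 : ℕ) : ℝ) := by
        congr 1
        norm_num
      have h7 : (2.718 : ℝ) ^ 6 < Real.exp 1 ^ 6 :=
        pow_lt_pow_left₀ (lt_trans (by norm_num) Real.exp_one_gt_d9) (by norm_num) (by norm_num)
      have h8 : Real.exp ((6 : ℕ) : ℝ) = Real.exp 1 ^ 6 := by
        rw [← Real.exp_nat_mul, mul_one]
      rw [h6, h8]
      refine lt_trans ?_ h7
      norm_num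
    | succ m hm ih =>
      have h2 : (2 : ℝ) < Real.exp 0.8 := by
        have e1 : Real.log 2 < 0.8 := lt_trans Real.log_two_lt_d9 (by norm_num)
        calc (2 : ℝ) = Real.exp (Real.log 2) := (Real.exp_log (by norm_num)).symm
          _ < _ := Real.exp_lt_exp.2 e1
      have h3 : Real.exp (0.8 * ((m + 1 : ℕ) : ℝ) + 2) =
          Real.exp (0.8 * m + 2) * Real.exp 0.8 := by
        rw [← Real.exp_add]
        congr 1
        push_cast
        ring
      rw [h3, pow_succ]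
      have h4 : 0 < Real.exp (0.8 * (m : ℝ) + 2) := Real.exp_pos _
      have h5 := mul_lt_mul_of_pos_left h2 h4
      linarith
  have h2 : (2 * (7 / 4 * √(2 ^ m))) ^ 2 = 49 / 4 * (2 : ℝ) ^ m := by
    have := Real.mul_self_sqrt (show (0 : ℝ) ≤ 2 ^ m by positivity)
    ring_nf
    rw [Real.sq_sqrt (by positivity)]
  have h3 : Real.exp (0.8 * m + 2) = Real.exp (0.4 * m + 1) ^ 2 := by
    rw [← Real.exp_nat_mul]
    congr 1
    push_cast
    ring
  rw [← h2, h3] at h1
  exact lt_of_pow_lt_pow_left₀ 2 (Real.exp_pos _).le h1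

/-- For every `m ≥ 1` there is a certificate with `2 ρ < exp (0.4 m + 1)` and
`2 ρ ≤ 7/2 · 2^{m/2}`. -/
theorem exists_cert (m : ℕ) (hm : 1 ≤ m) :
    ∃ ρ, Cert m ρ ∧ 2 * ρ < Real.exp (0.4 * m + 1) ∧ 2 * ρ ≤ 7 / 2 * √(2 ^ m) := by
  have hs : ∀ y : ℝ, 0 ≤ y → ∀ k : ℕ, y ^ 2 ≤ 2 ^ k → y ≤ √((2 : ℝ) ^ k) := by
    intro y hy k h
    exact Real.le_sqrt_of_sq_le h
  rcases Nat.lt_or_ge m 5 with h | h
  · interval_cases m
    · refine ⟨1, cert_one, lt_exp_of_pow 1 (by norm_num) (by norm_num), ?_⟩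
      have := hs 1 (by norm_num) 1 (by norm_num)
      rw [pow_one] at this ⊢
      linarith
    · refine ⟨12 / 5, cert_two, lt_exp_of_pow 2 (by norm_num) (by norm_num), ?_⟩
      have := hs 2 (by norm_num) 2 (by norm_num)
      linarith
    · refine ⟨4, cert_three, lt_exp_of_pow 3 (by norm_num) (by norm_num), ?_⟩
      have := hs (16 / 7) (by norm_num) 3 (by norm_num)
      linarith
    · refine ⟨25 / 4, cert_four, lt_exp_of_pow 4 (by norm_num) (by norm_num), ?_⟩
      have := hs 4 (by norm_num) 4 (by norm_num)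
      linarith
  · exact ⟨_, cert_general m, general_num m h, by linarith⟩

theorem lower_num (m : ℕ) (hm : 1 ≤ m) : Real.exp (0.3 * m) < 2 * √(2 ^ m - 1) := by
  have h1 : (2 : ℝ) ^ 1 ≤ 2 ^ m := pow_le_pow_right₀ (by norm_num) hm
  have h2 : Real.exp (0.3 * m) ^ 2 < 2 ^ m := by
    rw [← Real.exp_nat_mul]
    have e1 : (2 : ℝ) ^ m = Real.exp (m * Real.log 2) := by
      rw [mul_comm, Real.exp_mul, Real.exp_log (by norm_num), Real.rpow_natCast]
    rw [e1]
    apply Real.exp_lt_exp.2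
    have e2 : (0.6 : ℝ) < Real.log 2 := lt_trans (by norm_num) Real.log_two_gt_d9
    have e3 : (1 : ℝ) ≤ m := by exact_mod_cast hm
    push_cast
    nlinarith
  have h3 : (2 * √((2 : ℝ) ^ m - 1)) ^ 2 = 4 * (2 ^ m - 1) := by
    rw [mul_pow, Real.sq_sqrt (by linarith)]
    norm_num
  refine lt_of_pow_lt_pow_left₀ 2 (by positivity) ?_
  rw [h3]
  linarith

end Q292.UK
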