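import Mathlib
import Pool.Agent.Q292.UK.Weights

/-!
# The growth constants
-/

namespace Q292.UK

open MeasureTheory ProbabilityTheory Finset Filter Topology

/-- the adder exists -/
theorem exists_adder : ∃ (Ω : Type) (_ : MeasurableSpace Ω) (P : Measure Ω)
    (_ : IsProbabilityMeasure P) (U : (n : ℕ) → Ω → Fin (n + 1)) (X : ℕ → Ω → ℝ),
    IsAdder P U X := by
  let μ : (n : ℕ) → Measure (Fin (n + 1)) := fun n => (PMF.uniformOfFintype (Fin (n + 1))).toMeasure
  have hμ : ∀ n, IsProbabilityMeasure (μ n) := fun n => inferInstance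
  refine ⟨(n : ℕ) → Fin (n + 1), inferInstance, Measure.infinitePi μ, inferInstance,
    fun n ω => ω n, fun n ω => x ω n, ?_⟩
  refine ⟨fun n => measurable_pi_apply n, ?_, ?_, fun ω => x_zero ω, fun n ω => x_succ ω n⟩
  · exact iIndepFun_infinitePi (P := μ) (X := fun _ ω => ω) (fun _ => measurable_id)
  · intro n k
    have h1 := (measurePreserving_eval_infinitePi μ n).measureReal_preimage
      (s := {k}) (measurableSet_singleton k).nullMeasurableSet
    have h2 : (fun ω : (n : ℕ) → Fin (n + 1) => ω n) = Function.eval n := rfl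
    rw [h2, h1, Measure.real, PMF.toMeasure_apply_singleton _ _ (measurableSet_singleton k),
      PMF.uniformOfFintype_apply, Fintype.card_fin, ENNReal.toReal_inv, ENNReal.toReal_natCast]
    push_cast
    rw [one_div]

theorem error_tendsto (A B : ℝ) :
    Tendsto (fun n : ℕ => (A + B * Real.log n) / √(n : ℝ)) atTop (𝓝 0) := by
  have h1 : Tendsto (fun n : ℕ => √(n : ℝ)) atTop atTop :=
    Real.tendsto_sqrt_atTop.comp tendsto_natCast_atTop_atTop
  have h2 : Tendsto (fun n : ℕ => A / √(n : ℝ)) atTop (𝓝 0) := h1.const_div_atTop A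
  have h3 : Tendsto (fun n : ℕ => Real.log n / √(n : ℝ)) atTop (𝓝 0) := by
    have := (isLittleO_log_rpow_atTop (show (0 : ℝ) < 1 / 2 by norm_num)).tendsto_div_nhds_zero
    have h4 := this.comp tendsto_natCast_atTop_atTop
    refine h4.congr fun n => ?_
    simp only [Function.comp]
    rw [Real.sqrt_eq_rpow]
  have h5 := h2.add (h3.const_mul B)
  rw [mul_zero, add_zero] at h5
  refine h5.congr fun n => ?_
  rw [add_div, mul_div_assoc]

theorem eventually_le {A B L L' : ℝ} (h : L < L') :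
    ∀ᶠ n : ℕ in atTop, L * √n + A + B * Real.log n ≤ L' * √(n : ℝ) := by
  filter_upwards [(error_tendsto A B).eventually_lt_const (show 0 < L' - L by linarith),
    eventually_ge_atTop 1] with n hn hn1
  have hs : 0 < √(n : ℝ) := Real.sqrt_pos.2 (by exact_mod_cast hn1)
  rw [div_lt_iff₀ hs] at hn
  linarith

variable {Ω : Type*} [MeasurableSpace Ω] {P : Measure Ω} {U : (n : ℕ) → Ω → Fin (n + 1)}
  {X : ℕ → Ω → ℝ}

theorem main_bounds [IsProbabilityMeasure P] (hX : IsAdder P U X) {m : ℕ} (hm : 1 ≤ m) :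
    (∀ᶠ n : ℕ in atTop, Real.exp (Real.exp (0.3 * m) * √n) ≤ ∫ ω, X n ω ^ m ∂P ∧
      ∫ ω, X n ω ^ m ∂P ≤ Real.exp (Real.exp (0.4 * m + 1) * √n)) ∧
    ∀ c : ℝ, Tendsto (fun n : ℕ => Real.log (∫ ω, X n ω ^ m ∂P) / √n) atTop (𝓝 c) →
      0.3 * m ≤ Real.log c ∧ Real.log c ≤ 0.4 * m + 1 ∧ 2 * √(2 ^ m - 1) ≤ c ∧
        c ≤ 7 / 2 * √(2 ^ m) := by
  obtain ⟨ρ, ⟨hρ0, h, hpos, hh⟩, hρ1, hρ2⟩ := exists_cert m hm
  obtain ⟨A, B, hA, hB, hup⟩ := upper hX hpos hρ0 hh
  obtain ⟨A', B', hlo⟩ := lower hX hm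
  have hlow := lower_num m hm
  refine ⟨?_, fun c hc => ?_⟩
  · filter_upwards [eventually_le (A := A) (B := B) hρ1, eventually_le (A := A') (B := B') hlow,
      eventually_ge_atTop 1] with n h1 h2 h3
    refine ⟨le_trans (Real.exp_le_exp.2 ?_) (hlo n h3),
      (hup n h3).trans (Real.exp_le_exp.2 h1)⟩
    linarith
  · have hup' : c ≤ 2 * ρ := by
      have h1 : Tendsto (fun n : ℕ => 2 * ρ + (A + B * Real.log n) / √(n : ℝ)) atTop
          (𝓝 (2 * ρ + 0)) := tendsto_const_nhds.add (error_tendsto A B)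
      rw [add_zero] at h1
      refine le_of_tendsto_of_tendsto hc h1 ?_
      filter_upwards [eventually_ge_atTop 1] with n hn
      have hs : 0 < √(n : ℝ) := Real.sqrt_pos.2 (by exact_mod_cast hn)
      have h2 : 0 < ∫ ω, X n ω ^ m ∂P := (Real.exp_pos _).trans_le (hlo n hn)
      rw [div_le_iff₀ hs, add_mul, div_mul_cancel₀ _ hs.ne']
      have h3 := Real.log_le_log h2 (hup n hn)
      rw [Real.log_exp] at h3
      linarith
    have hlo' : 2 * √(2 ^ m - 1) ≤ c := by
      have h1 : Tendsto (fun n : ℕ => 2 * √(2 ^ m - 1) - (A' + B' * Real.log n) / √(n : ℝ)) atTop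
          (𝓝 (2 * √(2 ^ m - 1) - 0)) := tendsto_const_nhds.sub (error_tendsto A' B')
      rw [sub_zero] at h1
      refine le_of_tendsto_of_tendsto h1 hc ?_
      filter_upwards [eventually_ge_atTop 1] with n hn
      have hs : 0 < √(n : ℝ) := Real.sqrt_pos.2 (by exact_mod_cast hn)
      rw [le_div_iff₀ hs, sub_mul, div_mul_cancel₀ _ hs.ne']
      have h3 := Real.log_le_log (Real.exp_pos _) (hlo n hn)
      rw [Real.log_exp] at h3
      linarith
    have hc0 : 0 < c := (Real.exp_pos _).trans (hlow.trans_le hlo')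
    refine ⟨?_, ?_, hlo', hup'.trans hρ2⟩
    · rw [Real.le_log_iff_exp_le hc0]
      exact hlow.le.trans hlo'
    · rw [Real.log_le_iff_le_exp hc0]
      exact hup'.trans hρ1.le

end Q292.UK
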